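import Pool.Agent.Helper44.BB.Stmts

/-! # Module RK: Rankin's method -/

set_option autoImplicit false

namespace Pool.Agent.Helper44.BB

theorem rk_factor (p y : ℝ) (hp : 0 < p) (hy : 1 < y) (hpy : p ≤ y) :
    p ^ (1 / Real.log y - 1) ≤ Real.exp 1 * (1 / p) := by
  have hl : 0 < Real.log y := Real.log_pos hy
  have h1 : p ^ (1 / Real.log y) ≤ Real.exp 1 := by
    calc p ^ (1 / Real.log y) ≤ y ^ (1 / Real.log y) :=
          Real.rpow_le_rpow hp.le hpy (by positivity)
      _ = Real.exp 1 := by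
          rw [Real.rpow_def_of_pos (by linarith), mul_one_div_cancel hl.ne']
  rw [Real.rpow_sub hp, Real.rpow_one, div_eq_mul_one_div]
  exact mul_le_mul_of_nonneg_right h1 (by positivity)

theorem st_RK : ST_RK := by
  intro A y hA hy
  have h1 : ∀ T ∈ A.powerset, ((∏ p ∈ T, p : ℕ) : ℝ) ^ (1 / Real.log y - 1) =
      ∏ p ∈ T, ((p : ℝ) ^ (1 / Real.log y - 1)) := by
    intro T _
    rw [Nat.cast_prod, Real.finsetProd_rpow _ _ (fun p _ => Nat.cast_nonneg p)]
  rw [Finset.sum_congr rfl h1, ← Finset.prod_one_add, Finset.mul_sum, Real.exp_sum]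
  apply Finset.prod_le_prod
  · intro p _
    positivity
  · intro p hp
    have h2 := rk_factor p y (by exact_mod_cast (hA p hp).1.pos) hy (hA p hp).2
    have h3 := Real.add_one_le_exp (Real.exp 1 * (1 / (p : ℝ)))
    linarith

end Pool.Agent.Helper44.BB
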