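import Pool.Agent.Helper44.BB.Stmts

/-! # Module SUMM: summation of a thin set -/

set_option autoImplicit false

namespace Pool.Agent.Helper44.BB

theorem summ_exp (c y : ℝ) (hc : 0 < c) (hy : 0 < y) :
    Real.exp (-(y ^ (1 / 3 : ℝ) * c)) ≤ 720 / (c ^ 6 * y ^ 2) := by
  have h1 : 0 < y ^ (1 / 3 : ℝ) * c := mul_pos (Real.rpow_pos_of_pos hy _) hc
  have h2 := Real.pow_div_factorial_le_exp (y ^ (1 / 3 : ℝ) * c) h1.le 6
  have h3 : (y ^ (1 / 3 : ℝ) * c) ^ 6 = c ^ 6 * y ^ 2 := by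
    have h4 : (y ^ (1 / 3 : ℝ)) ^ 6 = y ^ 2 := by
      rw [← Real.rpow_natCast, ← Real.rpow_mul hy.le, ← Real.rpow_natCast]
      norm_num
    rw [mul_pow, h4, mul_comm]
  rw [h3] at h2
  have h5 : ((6 : ℕ).factorial : ℝ) = 720 := by norm_num [Nat.factorial]
  rw [h5] at h2
  have h6 : 0 < c ^ 6 * y ^ 2 := by positivity
  rw [Real.exp_neg, le_div_iff₀ h6, inv_mul_le_iff₀ (Real.exp_pos _)]
  rw [div_le_iff₀ (by norm_num)] at h2
  linarith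

theorem summ_block (S : Set ℕ) (x₀ c : ℝ) (hc : 0 < c)
    (h : ∀ (x : ℝ) (A : Finset ℕ), x₀ ≤ x → (∀ a ∈ A, (a : ℝ) ≤ x ∧ a ∈ S) →
      (A.card : ℝ) ≤ x * Real.exp (-(Real.log x ^ (1 / 3 : ℝ) * c))) :
    ∃ K : ℝ, ∀ (j : ℕ) (F : Finset ℕ), (∀ a ∈ F, a ∈ S ∧ 2 ^ j ≤ a ∧ a < 2 ^ (j + 1)) →
      ∑ a ∈ F, 1 / (a : ℝ) ≤ K * (1 / ((j + 1 : ℕ) : ℝ) ^ 2) := by
  obtain ⟨j₀, hj₀⟩ := pow_unbounded_of_one_lt x₀ (one_lt_two : (1 : ℝ) < 2)
  have hl2 : 0 < Real.log 2 := Real.log_pos one_lt_two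
  refine ⟨((j₀ + 1 : ℕ) : ℝ) ^ 2 + 1440 / (c ^ 6 * Real.log 2 ^ 2), fun j F hF => ?_⟩
  have hj1 : (0 : ℝ) < ((j + 1 : ℕ) : ℝ) := by positivity
  have h2j : (0 : ℝ) < 2 ^ j := by positivity
  have hs : ∑ a ∈ F, 1 / (a : ℝ) ≤ (F.card : ℝ) * (1 / 2 ^ j) := by
    rw [← nsmul_eq_mul]
    apply Finset.sum_le_card_nsmul
    intro a ha
    have h1 : (2 ^ j : ℝ) ≤ a := by exact_mod_cast (hF a ha).2.1
    exact one_div_le_one_div_of_le h2j h1
  rcases Nat.lt_or_ge j j₀ with hj | hj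
  · have hcard : F.card ≤ 2 ^ j := by
      have h1 : F ⊆ Finset.Ico (2 ^ j) (2 ^ (j + 1)) := by
        intro a ha
        rw [Finset.mem_Ico]
        exact (hF a ha).2
      have h2 := Finset.card_le_card h1
      rw [Nat.card_Ico] at h2
      have h3 : 2 ^ (j + 1) = 2 ^ j + 2 ^ j := by ring
      rw [h3, Nat.add_sub_cancel] at h2
      exact h2
    have h1 : (F.card : ℝ) * (1 / 2 ^ j) ≤ 1 := by
      have h2 : (F.card : ℝ) ≤ 2 ^ j := by exact_mod_cast hcard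
      rw [mul_one_div, div_le_one h2j]
      exact h2
    have h3 : (1 : ℝ) ≤ ((j₀ + 1 : ℕ) : ℝ) ^ 2 * (1 / ((j + 1 : ℕ) : ℝ) ^ 2) := by
      rw [mul_one_div, one_le_div (by positivity)]
      apply pow_le_pow_left₀ hj1.le
      exact_mod_cast (by omega : j + 1 ≤ j₀ + 1)
    have h4 : 0 ≤ 1440 / (c ^ 6 * Real.log 2 ^ 2) * (1 / ((j + 1 : ℕ) : ℝ) ^ 2) := by positivity
    rw [add_mul]
    linarith
  · have hx : x₀ ≤ 2 ^ (j + 1) := by
      refine hj₀.le.trans ?_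
      exact pow_le_pow_right₀ one_le_two (by omega)
    have h1 := h (2 ^ (j + 1)) F hx (fun a ha => ⟨by
      have := (hF a ha).2.2
      exact_mod_cast this.le, (hF a ha).1⟩)
    have hlog : Real.log (2 ^ (j + 1)) = ((j + 1 : ℕ) : ℝ) * Real.log 2 := by
      rw [Real.log_pow]
    rw [hlog] at h1
    have h2 := summ_exp c (((j + 1 : ℕ) : ℝ) * Real.log 2) hc (mul_pos hj1 hl2)
    have h3 : (F.card : ℝ) * (1 / 2 ^ j) ≤
        1440 / (c ^ 6 * Real.log 2 ^ 2) * (1 / ((j + 1 : ℕ) : ℝ) ^ 2) := by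
      calc (F.card : ℝ) * (1 / 2 ^ j) ≤ (2 ^ (j + 1) * (720 / (c ^ 6 *
            (((j + 1 : ℕ) : ℝ) * Real.log 2) ^ 2))) * (1 / 2 ^ j) :=
            mul_le_mul_of_nonneg_right (h1.trans (mul_le_mul_of_nonneg_left h2 (by positivity)))
              (by positivity)
        _ = 1440 / (c ^ 6 * Real.log 2 ^ 2) * (1 / ((j + 1 : ℕ) : ℝ) ^ 2) := by
            field_simp
            ring
    have h4 : 0 ≤ ((j₀ + 1 : ℕ) : ℝ) ^ 2 * (1 / ((j + 1 : ℕ) : ℝ) ^ 2) := by positivity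
    rw [add_mul]
    linarith

theorem st_SUMM : ST_SUMM := by
  intro S x₀ c hc h0 h
  obtain ⟨K, hK⟩ := summ_block S x₀ c hc h
  have hsum : Summable fun j : ℕ => K * (1 / ((j + 1 : ℕ) : ℝ) ^ 2) := by
    apply Summable.mul_left
    exact (summable_nat_add_iff (f := fun n : ℕ => 1 / ((n : ℕ) : ℝ) ^ 2) 1).2
      (Real.summable_one_div_nat_pow.2 one_lt_two)
  refine summable_of_sum_le (c := ∑' j : ℕ, K * (1 / ((j + 1 : ℕ) : ℝ) ^ 2))
    (fun a => by positivity) (fun u => ?_)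
  have hnn : ∀ j : ℕ, 0 ≤ K * (1 / ((j + 1 : ℕ) : ℝ) ^ 2) := by
    intro j
    have := hK j ∅ (by simp)
    simpa using this
  set F : Finset ℕ := u.map (Function.Embedding.subtype _) with hF
  have hFS : ∀ a ∈ F, a ∈ S := by
    intro a ha
    rw [hF, Finset.mem_map] at ha
    obtain ⟨b, -, rfl⟩ := ha
    exact b.2
  have h1 : ∑ a ∈ u, 1 / ((a : ℕ) : ℝ) = ∑ a ∈ F, 1 / (a : ℝ) := by
    rw [hF, Finset.sum_map]
    rfl
  rw [h1]
  set N : ℕ := F.sup (fun a => Nat.log 2 a) + 1 with hN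
  have h2 : ∑ a ∈ F, 1 / (a : ℝ) =
      ∑ j ∈ Finset.range N, ∑ a ∈ F with Nat.log 2 a = j, 1 / (a : ℝ) := by
    rw [Finset.sum_fiberwise_of_maps_to]
    intro a ha
    rw [Finset.mem_range, hN]
    exact Nat.lt_succ_of_le (Finset.le_sup (f := fun a => Nat.log 2 a) ha)
  rw [h2]
  calc ∑ j ∈ Finset.range N, ∑ a ∈ F with Nat.log 2 a = j, 1 / (a : ℝ)
      ≤ ∑ j ∈ Finset.range N, K * (1 / ((j + 1 : ℕ) : ℝ) ^ 2) := by
        apply Finset.sum_le_sum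
        intro j _
        apply hK
        intro a ha
        rw [Finset.mem_filter] at ha
        have ha0 : a ≠ 0 := fun h' => h0 (h' ▸ hFS a ha.1)
        refine ⟨hFS a ha.1, ?_, ?_⟩
        · rw [← ha.2]
          exact Nat.pow_log_le_self 2 ha0
        · rw [← ha.2]
          exact Nat.lt_pow_succ_log_self one_lt_two a
    _ ≤ ∑' j : ℕ, K * (1 / ((j + 1 : ℕ) : ℝ) ^ 2) :=
        hsum.sum_le_tsum _ (fun j _ => hnn j)

end Pool.Agent.Helper44.BB
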